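import Pool.Agent.H520Z.Sel.GInterp
import Pool.Agent.H520Z.Sel.SBridge

set_option autoImplicit false

namespace Pool.Agent.Results.MP_52e316_nt.AGLShaped

open Pool.Agent.H520Z.Sel

/-- The analytic shape of a tempered `GL m` standard `L`-function does not force the Lindelof
bound, nor any exponent `(1/4 - ε) m` below the convexity exponent `m/4` in large degree. -/
theorem result : ∀ ε : ℝ, 0 < ε → ∃ m₀ : ℕ, ∀ m : ℕ, m₀ ≤ m → ∀ μ : Fin m → ℝ, (∀ j, μ j ≤ 0) →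
    ∃ r₀ : ℕ, ∀ r : ℕ, r₀ ≤ r →
      ∃ (α : ℕ → Fin m → ℂ) (Λ : ℂ → ℂ), GLShaped m (2 ^ r) μ α Λ ∧
        (∃ B : ℝ, ∀ s : ℂ, 1 ≤ s.re → ‖Λ s / ∏ j, Complex.Gammaℝ (s - (μ j : ℂ))‖ ≤ B) ∧
        ¬ ∃ K : ℝ, ∀ t : ℝ, ‖Λ (1 / 2 + t * Complex.I) /
          ∏ j, Complex.Gammaℝ (1 / 2 + t * Complex.I - (μ j : ℂ))‖ ≤
            K * (1 + |t|) ^ ((1 / 4 - ε) * m) := by
  intro ε hε
  obtain ⟨e, he0, he1, he2⟩ : ∃ e : ℝ, 0 < e ∧ e ≤ ε ∧ e ≤ 1 / 8 :=
    ⟨min ε (1 / 8), by positivity, min_le_left _ _, min_le_right _ _⟩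
  obtain ⟨m0, h⟩ := gl_interp (1 / 2 + e / 2) (1 - e / 2) (by linarith) (by linarith) (by linarith)
    (by linarith)
  obtain ⟨m1, hm1⟩ := exists_nat_gt (7 / e)
  refine ⟨max m0 m1, fun m hm μ hμ => ?_⟩
  have hd2 : 7 < m * e := by
    have h1 : (m1 : ℝ) ≤ m := by exact_mod_cast (le_max_right _ _).trans hm
    have := hm1.trans_le h1
    rwa [div_lt_iff₀ he0] at this
  have hm0 : 1 ≤ m := by
    rcases Nat.eq_zero_or_pos m with rfl | h0
    · norm_num at hd2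
    · exact h0
  have hd0 : (0 : ℝ) ≤ m := Nat.cast_nonneg m
  obtain ⟨r0, h⟩ := h m ((le_max_left _ _).trans hm) μ hμ
  refine ⟨r0, fun r hr => ?_⟩
  obtain ⟨α, Λ, k1, -, ⟨B, hB⟩, -, δ, hδ, k5⟩ := h r hr ∅
  refine ⟨α, Λ, k1, ⟨B, fun s hs => by rw [div_eq_mul_inv]; exact hB s (by linarith)⟩, ?_⟩
  rintro ⟨K, hK⟩
  obtain ⟨-, g2, -, g4, -, -⟩ := gamR_bounds hm0 μ hμ
  obtain ⟨-, -, -, k2, k3, -, -⟩ := k1
  have hK0 : 0 ≤ K := by
    have := hK 0
    simp only [abs_zero, add_zero, Real.one_rpow, mul_one] at this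
    exact (norm_nonneg _).trans this
  have hB0 : 0 ≤ B := (norm_nonneg _).trans (hB 2 (by simp; linarith))
  set x : ℝ := (1 / 4 - e) * m with hx
  have hx0 : 0 ≤ x := by rw [hx]; nlinarith
  obtain ⟨C, hC, hPL⟩ := gauss_PL (1 / 2) 2 x (by norm_num)
  obtain ⟨K1, hK1⟩ := k3 (1 / 2) 2
  obtain ⟨K2, hK2⟩ := g2 (1 / 2) 2 (by norm_num)
  have key := hPL (fun s => Λ s * (gamR μ s)⁻¹) (fun u => (K + B) * (1 + |u|) ^ x) (k2.mul g4)
    ⟨(|K1| + 1) * |K2|, 1, fun w a1 a2 => by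
      rw [norm_mul, Real.rpow_one, mul_assoc]
      have b1 := (hK2 w a1 a2).2
      have b2 : Real.exp (K2 * (1 + |w.im|)) ≤ Real.exp ((|K1| + 1) * |K2| * (1 + |w.im|)) := by
        apply Real.exp_le_exp.2
        apply mul_le_mul_of_nonneg_right _ (by positivity)
        nlinarith [le_abs_self K2, abs_nonneg K1, abs_nonneg K2]
      apply mul_le_mul ((hK1 w a1 a2).trans (by linarith [le_abs_self K1])) (b1.trans _)
        (norm_nonneg _) (by positivity)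
      exact mul_le_mul (le_abs_self _) b2 (by positivity) (abs_nonneg _)⟩
    (pow_lip _ x (by positivity) hx0)
    (fun w hw => by
      have b1 : 1 ≤ (1 + |w.im|) ^ x := Real.one_le_rpow (by linarith [abs_nonneg w.im]) hx0
      rcases hw with hw | hw
      · have b2 : w = 1 / 2 + w.im * Complex.I := by
          apply Complex.ext <;> simp [hw]
        have b3 := hK w.im
        rw [← b2, div_eq_mul_inv] at b3
        have b4 : (1 + |w.im|) ^ ((1 / 4 - ε) * m) ≤ (1 + |w.im|) ^ x :=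
          Real.rpow_le_rpow_of_exponent_le (by linarith [abs_nonneg w.im]) (by rw [hx]; nlinarith)
        refine b3.trans ?_
        nlinarith [mul_le_mul_of_nonneg_left b4 hK0]
      · have b2 := hB w (by linarith)
        refine b2.trans ?_
        nlinarith)
  obtain ⟨n, hn⟩ := exists_nat_gt (max 1 (C * (K + B) / δ))
  have hn1 : (1 : ℝ) < n := (le_max_left _ _).trans_lt hn
  have hn2 : C * (K + B) < n * δ := by
    have := (le_max_right _ _).trans_lt hn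
    rwa [div_lt_iff₀ hδ] at this
  have h1 := k5 n (by exact_mod_cast hn1.le) (Set.notMem_empty n)
  have h2 := key (((1 / 2 + e / 2 : ℝ) : ℂ) + n * Complex.I) (by simp; linarith)
    (by simp; linarith)
  have h3 : (((1 / 2 + e / 2 : ℝ) : ℂ) + n * Complex.I).im = n := by simp
  simp only [h3, abs_of_pos (by linarith : (0 : ℝ) < n)] at h2
  have h5 : (1 + (n : ℝ)) ^ x * (1 + n) ≤
      (1 + (n : ℝ)) ^ ((m : ℝ) / 2 * (1 - e / 2 - (1 / 2 + e / 2)) - 5 / 2) := by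
    rw [← Real.rpow_add_one (by linarith)]
    exact Real.rpow_le_rpow_of_exponent_le (by linarith) (by rw [hx]; nlinarith)
  have h6 : 0 < (1 + (n : ℝ)) ^ x := by positivity
  have h8 := mul_le_mul_of_nonneg_left h5 hδ.le
  nlinarith

end Pool.Agent.Results.MP_52e316_nt.AGLShaped
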